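import Pool.Agent.Helper44.GH.Stmts

open Finset MeasureTheory Filter Topology Matrix
open scoped ENNReal ContDiff

namespace Pool.Agent.Helper44.GH

open Pool.Agent.Helper44.GF Pool.Agent.Helper44.GN

theorem mp2_step {E : Type} [NormedAddCommGroup E] [NormedSpace ℝ E] (G : E → ℝ) (w u v : E)
    (h : SLP G w) (hu : u ≠ w) (hv : v ≠ w) :
    ∃ (ρ : ℝ) (φ : E → E), 0 < ρ ∧ Continuous φ ∧ φ u = u ∧ φ v = v ∧
      (∀ x, φ x = x ∨ G x < G (φ x)) ∧ ∀ x, ‖x - w‖ < ρ → G x < G (φ x) := by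
  obtain ⟨e, r, c, hr, hc, H⟩ := h
  have hu' : 0 < ‖u - w‖ := norm_pos_iff.mpr (sub_ne_zero.mpr hu)
  have hv' : 0 < ‖v - w‖ := norm_pos_iff.mpr (sub_ne_zero.mpr hv)
  obtain ⟨R, hRdef⟩ : ∃ R : ℝ, R = min r (min ‖u - w‖ ‖v - w‖) := ⟨_, rfl⟩
  have hR : 0 < R := by rw [hRdef]; exact lt_min hr (lt_min hu' hv')
  have hRr : R ≤ r := by rw [hRdef]; exact min_le_left _ _
  have hRu : R ≤ ‖u - w‖ := by rw [hRdef]; exact (min_le_right _ _).trans (min_le_left _ _)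
  have hRv : R ≤ ‖v - w‖ := by rw [hRdef]; exact (min_le_right _ _).trans (min_le_right _ _)
  obtain ⟨χ, hχ⟩ : ∃ χ : E → ℝ, χ = fun x => max 0 (min 1 (3 - 4 * (‖x - w‖ / R))) := ⟨_, rfl⟩
  have hχc : Continuous χ := by
    rw [hχ]
    fun_prop
  have hχ0 : ∀ x, 0 ≤ χ x := fun x => by rw [hχ]; exact le_max_left _ _
  have hχ1 : ∀ x, χ x ≤ 1 := fun x => by
    rw [hχ]; exact max_le zero_le_one (min_le_left _ _)
  have hfar : ∀ x, R ≤ ‖x - w‖ → χ x = 0 := by
    intro x hx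
    have h1 : 1 ≤ ‖x - w‖ / R := by rwa [le_div_iff₀ hR, one_mul]
    rw [hχ]
    apply max_eq_left
    exact (min_le_right _ _).trans (by linarith)
  have hpos : ∀ x, 0 < χ x → ‖x - w‖ < R := by
    intro x hx
    by_contra hcon
    rw [hfar x (not_lt.mp hcon)] at hx
    exact lt_irrefl _ hx
  have hnear : ∀ x, ‖x - w‖ < R / 2 → 0 < χ x := by
    intro x hx
    have h1 : ‖x - w‖ / R < 1 / 2 := by
      rw [div_lt_iff₀ hR]; linarith
    rw [hχ]
    apply lt_max_of_lt_right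
    exact lt_min one_pos (by linarith)
  have hinc : ∀ x, 0 < χ x → G x < G (x + (R * χ x) • e) := by
    intro x hx
    have h1 := H x ((hpos x hx).trans_le hRr) (R * χ x) (mul_nonneg hR.le hx.le)
      ((mul_le_mul_of_nonneg_left (hχ1 x) hR.le).trans (by rw [mul_one]; exact hRr))
    have h2 : 0 < c * (R * χ x) := mul_pos hc (mul_pos hR hx)
    linarith
  have hfix : ∀ x, χ x = 0 → x + (R * χ x) • e = x := by
    intro x hx
    rw [hx, mul_zero, zero_smul, add_zero]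
  refine ⟨R / 2, fun x => x + (R * χ x) • e, by positivity, ?_, hfix u (hfar u hRu),
    hfix v (hfar v hRv), ?_, ?_⟩
  · exact continuous_id.add ((continuous_const.mul hχc).smul continuous_const)
  · intro x
    rcases (hχ0 x).eq_or_lt with h0 | h0
    · exact Or.inl (hfix x h0.symm)
    · exact Or.inr (hinc x h0)
  · intro x hx
    exact hinc x (hnear x hx)

theorem mp2_ind {E : Type} [NormedAddCommGroup E] [NormedSpace ℝ E] (G : E → ℝ) (c : ℝ) (u v : E)
    (ρ : E → ℝ) (φ : E → E → E) (F : Finset E)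
    (hc : ∀ w ∈ F, Continuous (φ w)) (hu : ∀ w ∈ F, φ w u = u) (hv : ∀ w ∈ F, φ w v = v)
    (hm : ∀ w ∈ F, ∀ x, φ w x = x ∨ G x < G (φ w x))
    (hs : ∀ w ∈ F, ∀ x, ‖x - w‖ < ρ w → G x < G (φ w x)) :
    ∀ K : Set E, IsCompact K → IsConnected K → u ∈ K → v ∈ K → (∀ w ∈ K, c ≤ G w) →
      (∀ x ∈ K, G x = c → ∃ w ∈ F, ‖x - w‖ < ρ w) →
      ∃ K' : Set E, IsCompact K' ∧ IsConnected K' ∧ u ∈ K' ∧ v ∈ K' ∧ ∀ w ∈ K', c < G w := by
  classical
  induction F using Finset.induction_on with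
  | empty =>
    intro K hK hK2 huK hvK hG hcov
    refine ⟨K, hK, hK2, huK, hvK, ?_⟩
    intro w hw
    refine lt_of_le_of_ne (hG w hw) ?_
    intro heq
    obtain ⟨w', hw', _⟩ := hcov w hw heq.symm
    simp at hw'
  | insert a F ha ih =>
    intro K hK hK2 huK hvK hG hcov
    have hmem : ∀ w ∈ F, w ∈ insert a F := fun w hw => Finset.mem_insert_of_mem hw
    have haa : a ∈ insert a F := Finset.mem_insert_self a F
    have hca := hc a haa
    refine ih (fun w hw => hc w (hmem w hw)) (fun w hw => hu w (hmem w hw))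
      (fun w hw => hv w (hmem w hw)) (fun w hw => hm w (hmem w hw))
      (fun w hw => hs w (hmem w hw)) (φ a '' K) (hK.image hca) (hK2.image _ hca.continuousOn)
      ⟨u, huK, hu a haa⟩ ⟨v, hvK, hv a haa⟩ ?_ ?_
    · rintro _ ⟨x, hx, rfl⟩
      rcases hm a haa x with h | h
      · rw [h]; exact hG x hx
      · exact (hG x hx).trans h.le
    · rintro _ ⟨x, hx, rfl⟩ hGx
      rcases hm a haa x with h | h
      · rw [h] at hGx
        obtain ⟨w, hw, hxw⟩ := hcov x hx hGx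
        rcases Finset.mem_insert.mp hw with rfl | hw
        · exfalso
          have h3 := hs w haa x hxw
          rw [h] at h3
          exact lt_irrefl _ h3
        · exact ⟨w, hw, by rw [h]; exact hxw⟩
      · exfalso
        have h2 := hG x hx
        linarith

theorem st_MP2 : ST_MP2 := by
  intro E _ _ G hG K c u v hK hK2 hc hSLP hu hv hcu hcv
  classical
  have hstep : ∀ w : E, ∃ (ρ : ℝ) (φ : E → E), w ∈ K → G w = c →
      (0 < ρ ∧ Continuous φ ∧ φ u = u ∧ φ v = v ∧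
      (∀ x, φ x = x ∨ G x < G (φ x)) ∧ ∀ x, ‖x - w‖ < ρ → G x < G (φ x)) := by
    intro w
    by_cases hw : w ∈ K ∧ G w = c
    · have huw : u ≠ w := by rintro rfl; exact absurd hw.2 hcu.ne'
      have hvw : v ≠ w := by rintro rfl; exact absurd hw.2 hcv.ne'
      obtain ⟨ρ, φ, h⟩ := mp2_step G w u v (hSLP w hw.1 hw.2) huw hvw
      exact ⟨ρ, φ, fun _ _ => h⟩
    · exact ⟨0, id, fun h1 h2 => absurd ⟨h1, h2⟩ hw⟩
  choose ρ φ hρφ using hstep
  have hS : IsCompact (K ∩ {w | G w = c}) :=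
    hK.inter_right (isClosed_eq hG continuous_const)
  obtain ⟨F, hF1, hF2⟩ := hS.elim_nhds_subcover (fun w => Metric.ball w (ρ w))
    (fun w hw => Metric.ball_mem_nhds w (hρφ w hw.1 hw.2).1)
  obtain ⟨K', hK', hK2', hu', hv', hG'⟩ := mp2_ind G c u v ρ φ F
    (fun w hw => (hρφ w (hF1 w hw).1 (hF1 w hw).2).2.1)
    (fun w hw => (hρφ w (hF1 w hw).1 (hF1 w hw).2).2.2.1)
    (fun w hw => (hρφ w (hF1 w hw).1 (hF1 w hw).2).2.2.2.1)
    (fun w hw => (hρφ w (hF1 w hw).1 (hF1 w hw).2).2.2.2.2.1)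
    (fun w hw => (hρφ w (hF1 w hw).1 (hF1 w hw).2).2.2.2.2.2)
    K hK hK2 hu hv hc (by
      intro x hx hGx
      have h1 := hF2 (show x ∈ K ∩ {w | G w = c} from ⟨hx, hGx⟩)
      simp only [Set.mem_iUnion, exists_prop] at h1
      obtain ⟨w, hw, hxw⟩ := h1
      rw [Metric.mem_ball, dist_eq_norm] at hxw
      exact ⟨w, hw, hxw⟩)
  obtain ⟨w0, hw0, hmin⟩ := hK'.exists_isMinOn ⟨u, hu'⟩ hG.continuousOn
  exact ⟨K', G w0, hK', hK2', hu', hv', hG' w0 hw0, fun w hw => hmin hw⟩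

end Pool.Agent.Helper44.GH
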